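import Pool.Agent.Helper96.KS.Parts

/-!
# UB: upper bound for the distance
-/

set_option autoImplicit false

open Finset

namespace KS.UB_helper2

open scoped Classical

open KS Inst

theorem inv_init {K Δ : ℕ} {I : Inst K} {s : ℕ} {om B : ℝ} (η : I.H → I.H) (x : I.H)
    (hB : 1 + 2 * Δ * (s : ℝ) / om ≤ B) : Inv Δ s om B η (init ∅ ∅ x) := by
  refine ⟨?_, ?_, ?_, ?_, ?_, ?_, ?_⟩
  · intro y hy
    simp [init] at hy
  · intro a _
    simp [init]
  · intro a _
    simp [init]
  · intro a _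
    simp [init]
  · intro a _
    simp [init]
  · simp [init]
  · simp only [init, card_empty, card_singleton, Nat.cast_zero, Nat.cast_one, sum_singleton]
    simp only [sub_zero, one_mul]
    linarith

theorem card_bound {K Δ : ℕ} {I : Inst K} {s : ℕ} {om B : ℝ} {η : I.H → I.H} {S : I.St}
    (hom : 0 < om) (h : Inv Δ s om B η S) : (S.D.card : ℝ) + S.L.card ≤ B := by
  have h1 := h.cap
  have h2 : 0 ≤ ∑ a ∈ S.L, S.wt a * ((s : ℝ) - S.dep a) := by
    refine sum_nonneg fun a ha => ?_
    have h3 : (S.dep a : ℝ) ≤ s := by exact_mod_cast h.deps a ha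
    exact mul_nonneg (h.wpos a ha).le (by linarith)
  have h4 : 0 ≤ 2 * (Δ : ℝ) * (∑ a ∈ S.L, S.wt a * ((s : ℝ) - S.dep a)) / om := by positivity
  have h5 : (0 : ℝ) ≤ S.F.card := Nat.cast_nonneg _
  linarith

theorem main (hPAIR : S_PAIR) (hF1 : S_F1) (hFB : S_FB) (hF2b : S_F2b) (hREV : S_REV)
    (hTOUCH : S_TOUCH) (hCL : S_CL) : S_UB := by
  intro K Δ I hI r m L sx sy om th B lam lam' ep ze hom hth hlam hlam' hep hrx hry hze hB hBN
    homr hlamr hlam'r hL hLN hideal
  have hNpos : (0 : ℝ) < I.N := by exact_mod_cast hI.npos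
  have hK2 : (2 : ℝ) ≤ K := by exact_mod_cast hI.hK
  have : Nonempty I.H := Fintype.card_pos_iff.1 hI.npos
  have hΔ3 : (3 : ℝ) ≤ Δ := by
    obtain ⟨x⟩ := (inferInstance : Nonempty I.H)
    exact_mod_cast (hI.d3 x.1).trans (hI.dΔ x.1)
  have hsy : (0 : ℝ) ≤ sy := Nat.cast_nonneg _
  have hsx : (0 : ℝ) ≤ sx := Nat.cast_nonneg _
  have hB1 : 1 + 2 * Δ * (sx : ℝ) / om ≤ B := by
    have h1 : 2 * (Δ : ℝ) * (sx : ℝ) / om ≤ 2 * Δ * ((sx : ℝ) + sy) / om := by
      gcongr
      linarith
    linarith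
  have hB0 : 0 ≤ B := by
    have : 0 ≤ 2 * (Δ : ℝ) * (sx : ℝ) / om := by positivity
    linarith
  set X : ℝ := ((L : ℝ) + 1) ^ 2 * (3 * K * Δ * (L + 1)) ^ L with hX
  set E1 : ℝ := Real.exp (-lam * ep + 4 * lam ^ 2 * (1 / 2) ^ r +
    lam * I.err Δ om B * ((sx : ℝ) + sy)) with hE1
  set E2 : ℝ := Real.exp (-lam' * ep / I.N + 3 * K * lam' ^ 2 * th / I.N
    + 20 * (K : ℝ) ^ 2 * lam' * (3 * B + 1) / (I.N : ℝ) ^ 2) with hE2
  -- the state explored from `x`
  set R : (I.H → I.H) → I.H → I.St := fun η x => run sx om η ⌈(sx : ℝ) / om⌉₊ (init ∅ ∅ x)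
    with hR
  -- the pair event
  set Pev : (I.H → I.H) → I.H → I.H → Prop := fun η x y =>
      ¬ Bad r η x ∧ ¬ Bad r η y ∧
      (∀ l : List I.H, List.IsChain (Nb η) (y :: l) → l.length ≤ r →
        ∀ h ∈ (R η x).D ∪ (R η x).L, h.1 ≠ endv η y l) ∧
      y ∉ (R η x).D ∧ y ∉ (R η x).L ∧
      ((I.P η) ^ (sx + sy)) x (η y) < (ze - 4 * K * ep) / I.N with hPev
  have hpair : ∀ x y, ((I.Om.filter fun η => Pev η x y).card : ℝ) ≤
      I.Om.card * ((K + 2) * E1 + E2) := fun x y =>
    hPAIR K Δ I hI r sx sy om th B lam lam' ep ze hom hth hlam hlam' hep hrx hry hB hBN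
      homr hlamr hlam'r hideal x y
  have htan : ((I.Om.filter fun η => Tangle L η).card : ℝ) ≤ I.Om.card * (X / I.N) := by
    refine (hF1 K Δ I hI L hLN).trans ?_
    refine mul_le_mul_of_nonneg_left ?_ (Nat.cast_nonneg _)
    refine div_le_div_of_nonneg_right ?_ hNpos.le
    rw [hX]
    refine mul_le_mul_of_nonneg_right ?_ (by positivity)
    have : (0 : ℝ) ≤ L := Nat.cast_nonneg _
    nlinarith
  -- few bad half-edges
  set nb : (I.H → I.H) → ℕ := fun η => (univ.filter fun x : I.H => Bad r η x).card with hnb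
  have hL' : 4 * (r + 1) ≤ L := by omega
  have hbadsum : ∑ η ∈ I.Om, (nb η : ℝ) ≤ I.Om.card * X := by
    have h1 : 4 * K * (4 * (r + 1) + 2) ≤ I.N := by
      refine le_trans ?_ hLN
      exact Nat.mul_le_mul_left _ (by omega)
    refine (hFB K Δ I hI r (4 * (r + 1)) rfl h1).trans ?_
    refine mul_le_mul_of_nonneg_left ?_ (Nat.cast_nonneg _)
    rw [hX]
    have h2 : ((4 * (r + 1) : ℕ) : ℝ) ≤ L := by exact_mod_cast hL'
    have h3 : (0 : ℝ) ≤ ((4 * (r + 1) : ℕ) : ℝ) := Nat.cast_nonneg _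
    have h4 : (1 : ℝ) ≤ 3 * K * Δ * ((L : ℝ) + 1) := by
      have : (0 : ℝ) ≤ L := Nat.cast_nonneg _
      have h5 : (6 : ℝ) ≤ 3 * K := by linarith
      have h6 : (18 : ℝ) ≤ 3 * K * Δ := by nlinarith
      nlinarith
    refine mul_le_mul ?_ ?_ (by positivity) (by positivity)
    · exact pow_le_pow_left₀ (by linarith) (by linarith) 2
    · calc (3 * (K : ℝ) * Δ * (((4 * (r + 1) : ℕ) : ℝ) + 1)) ^ (4 * (r + 1))
          ≤ (3 * (K : ℝ) * Δ * ((L : ℝ) + 1)) ^ (4 * (r + 1)) := by
            refine pow_le_pow_left₀ (by positivity) ?_ _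
            refine mul_le_mul_of_nonneg_left (by linarith) (by positivity)
        _ ≤ (3 * (K : ℝ) * Δ * ((L : ℝ) + 1)) ^ L := pow_le_pow_right₀ h4 hL'
  have hmarkov : ((I.Om.filter fun η => ep * I.N < nb η).card : ℝ) ≤
      I.Om.card * (X / (ep * I.N)) := by
    have hpos : 0 < ep * I.N := by positivity
    have h1 : ((I.Om.filter fun η => ep * I.N < nb η).card : ℝ) * (ep * I.N) ≤
        I.Om.card * X := by
      refine le_trans ?_ hbadsum
      calc ((I.Om.filter fun η => ep * I.N < nb η).card : ℝ) * (ep * I.N)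
          = ∑ η ∈ I.Om.filter (fun η => ep * I.N < nb η), (ep * I.N) := by
            rw [sum_const, nsmul_eq_mul]
        _ ≤ ∑ η ∈ I.Om.filter (fun η => ep * I.N < nb η), (nb η : ℝ) :=
            sum_le_sum fun η hη => (mem_filter.1 hη).2.le
        _ ≤ ∑ η ∈ I.Om, (nb η : ℝ) := sum_le_sum_of_subset_of_nonneg (filter_subset _ _)
            fun _ _ _ => Nat.cast_nonneg _
    rw [mul_div_assoc']
    rw [le_div_iff₀ hpos]
    exact h1
  -- the good case
  have hgood : ∀ η ∈ I.Om, ¬ Tangle L η → ¬ (ep * I.N < nb η) → (∀ x y, ¬ Pev η x y) →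
      I.D η (sx + sy + m) ≤
        1 - ze + 5 * K * ep + 2 * (1 / 2) ^ m + B * (Δ : ℝ) ^ (r + 3) / I.N := by
    intro η hη hT hnbη hP
    obtain ⟨-, hPnn, hrow, -, hD01, hstep, -, hDx, -⟩ := hREV K Δ I hI η hη
    have hf2 := hF2b K Δ I hI η hη r m L hL hT
    -- bound of `Dx` at good points
    have hz : ∀ z, ¬ Bad r η z → I.Dx η (sx + sy) z ≤
        1 - ze + 5 * K * ep + B * (Δ : ℝ) ^ (r + 3) / I.N := by
      intro z hzb
      rw [hDx]
      have hinv := (hCL K Δ I hI sx om B η η (init ∅ ∅ z) ⌈(sx : ℝ) / om⌉₊ hom hη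
        (inv_init η z hB1) (by simp [Cls, hη])).1
      have hcb : (((R η z).D).card : ℝ) + ((R η z).L).card ≤ B := card_bound hom hinv
      set XX : Finset I.H := (R η z).D ∪ (R η z).L with hXX
      have hXc : (XX.card : ℝ) ≤ B := by
        refine le_trans ?_ hcb
        exact_mod_cast card_union_le _ _
      set TS : Finset I.H := univ.filter fun y : I.H => ∃ l : List I.H,
        List.IsChain (Nb η) (y :: l) ∧ l.length ≤ r ∧ ∃ h ∈ XX, h.1 = endv η y l with hTS
      have htouch : (TS.card : ℝ) ≤ XX.card * (Δ : ℝ) ^ (r + 2) := hTOUCH K Δ I hI r η XX hη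
      set W : Finset I.H := (univ.filter fun x : I.H => Bad r η x) ∪ TS ∪ XX with hW
      have hWc : (W.card : ℝ) ≤ ep * I.N + B * (Δ : ℝ) ^ (r + 2) + B := by
        have h1 : (W.card : ℝ) ≤ (nb η : ℝ) + TS.card + XX.card := by
          have h2 : W.card ≤ nb η + TS.card + XX.card := by
            refine (card_union_le _ _).trans ?_
            exact Nat.add_le_add_right (card_union_le _ _) _
          exact_mod_cast h2
        have h3 : (TS.card : ℝ) ≤ B * (Δ : ℝ) ^ (r + 2) :=
          htouch.trans (mul_le_mul_of_nonneg_right hXc (by positivity))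
        push Not at hnbη
        linarith
      have hterm : ∀ y, max (1 / (I.N : ℝ) - ((I.P η) ^ (sx + sy)) z (η y)) 0 ≤
          (if y ∈ W then 1 / (I.N : ℝ) else 0) + (1 - ze + 4 * K * ep) / I.N := by
        intro y
        have hnn : 0 ≤ (1 - ze + 4 * K * ep) / I.N := by
          have : 0 ≤ 4 * (K : ℝ) * ep := by positivity
          refine div_nonneg ?_ hNpos.le
          linarith
        have hp0 := hPnn (sx + sy) z (η y)
        have hN0 : 0 ≤ 1 / (I.N : ℝ) := by positivity
        by_cases hy : y ∈ W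
        · rw [if_pos hy]
          refine max_le ?_ (by linarith)
          linarith
        · rw [if_neg hy, zero_add]
          refine max_le ?_ hnn
          rw [hW, mem_union, mem_union] at hy
          push Not at hy
          obtain ⟨⟨hy1, hy2⟩, hy3⟩ := hy
          have hyb : ¬ Bad r η y := fun h => hy1 (mem_filter.2 ⟨mem_univ _, h⟩)
          have hyt : ∀ l : List I.H, List.IsChain (Nb η) (y :: l) → l.length ≤ r →
              ∀ h ∈ (R η z).D ∪ (R η z).L, h.1 ≠ endv η y l := by
            intro l hl hlr h hh he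
            exact hy2 (mem_filter.2 ⟨mem_univ _, l, hl, hlr, h, hh, he⟩)
          have hyD : y ∉ (R η z).D := fun h => hy3 (mem_union_left _ h)
          have hyL : y ∉ (R η z).L := fun h => hy3 (mem_union_right _ h)
          have hnot := hP z y
          have hge : (ze - 4 * K * ep) / I.N ≤ ((I.P η) ^ (sx + sy)) z (η y) := by
            by_contra hlt
            push Not at hlt
            exact hnot ⟨hzb, hyb, hyt, hyD, hyL, hlt⟩
          have e1 : (1 - ze + 4 * K * ep) / I.N = 1 / (I.N : ℝ) - (ze - 4 * K * ep) / I.N := by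
            ring
          rw [e1]
          linarith
      calc ∑ y, max (1 / (I.N : ℝ) - ((I.P η) ^ (sx + sy)) z (η y)) 0
          ≤ ∑ y, ((if y ∈ W then 1 / (I.N : ℝ) else 0) + (1 - ze + 4 * K * ep) / I.N) :=
            sum_le_sum fun y _ => hterm y
        _ = W.card * (1 / (I.N : ℝ)) + (1 - ze + 4 * K * ep) := by
            rw [sum_add_distrib, sum_const, nsmul_eq_mul, ← sum_filter, sum_const, nsmul_eq_mul]
            congr 1
            · congr 2
              congr 1
              ext y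
              simp
            · have : ((univ : Finset I.H).card : ℝ) = I.N := by
                rw [card_univ]; rfl
              rw [this]
              field_simp
        _ ≤ (ep * I.N + B * (Δ : ℝ) ^ (r + 2) + B) * (1 / (I.N : ℝ)) +
              (1 - ze + 4 * K * ep) := by
            have := mul_le_mul_of_nonneg_right hWc (by positivity : (0 : ℝ) ≤ 1 / (I.N : ℝ))
            linarith
        _ ≤ 1 - ze + 5 * K * ep + B * (Δ : ℝ) ^ (r + 3) / I.N := by
            have h1 : (ep * I.N + B * (Δ : ℝ) ^ (r + 2) + B) * (1 / (I.N : ℝ)) =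
                ep + (B * (Δ : ℝ) ^ (r + 2) + B) / I.N := by
              field_simp
              ring
            have h2 : B * (Δ : ℝ) ^ (r + 2) + B ≤ B * (Δ : ℝ) ^ (r + 3) := by
              have h3 : (1 : ℝ) ≤ (Δ : ℝ) ^ (r + 2) := one_le_pow₀ (by linarith)
              have h4 : (Δ : ℝ) ^ (r + 3) = (Δ : ℝ) ^ (r + 2) * Δ := by ring
              rw [h4]
              have h5 : (Δ : ℝ) ^ (r + 2) + 1 ≤ (Δ : ℝ) ^ (r + 2) * Δ := by nlinarith
              calc B * (Δ : ℝ) ^ (r + 2) + B = B * ((Δ : ℝ) ^ (r + 2) + 1) := by ring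
                _ ≤ B * ((Δ : ℝ) ^ (r + 2) * Δ) := mul_le_mul_of_nonneg_left h5 hB0
            have h6 := div_le_div_of_nonneg_right h2 hNpos.le
            rw [h1]
            have h7 : ep ≤ K * ep := by nlinarith
            linarith
    have hbd0 : 0 ≤ 1 - ze + 5 * K * ep + B * (Δ : ℝ) ^ (r + 3) / I.N := by
      have : 0 ≤ 5 * (K : ℝ) * ep := by positivity
      have : 0 ≤ B * (Δ : ℝ) ^ (r + 3) / I.N := by positivity
      linarith
    unfold Inst.D
    refine ciSup_le fun x => ?_
    refine (hstep (sx + sy) m x).trans ?_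
    calc ∑ z, ((I.P η) ^ m) x z * I.Dx η (sx + sy) z
        ≤ ∑ z, ((if Bad r η z then ((I.P η) ^ m) x z else 0) + ((I.P η) ^ m) x z *
            (1 - ze + 5 * K * ep + B * (Δ : ℝ) ^ (r + 3) / I.N)) := by
          refine sum_le_sum fun z _ => ?_
          have hp := hPnn m x z
          by_cases hzb : Bad r η z
          · rw [if_pos hzb]
            have h1 := mul_le_mul_of_nonneg_left (hD01 (sx + sy) z).2 hp
            have h2 := mul_nonneg hp hbd0
            linarith
          · rw [if_neg hzb, zero_add]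
            exact mul_le_mul_of_nonneg_left (hz z hzb) hp
      _ = ∑ z ∈ univ.filter (fun z : I.H => Bad r η z), ((I.P η) ^ m) x z +
            (1 - ze + 5 * K * ep + B * (Δ : ℝ) ^ (r + 3) / I.N) := by
          rw [sum_add_distrib, ← sum_filter, ← sum_mul, hrow m x, one_mul]
      _ ≤ 2 * (1 / 2) ^ m + (1 - ze + 5 * K * ep + B * (Δ : ℝ) ^ (r + 3) / I.N) := by
          have := hf2 x
          linarith
      _ = _ := by ring
  -- the union bound
  have hsub : (I.Om.filter fun η =>
      1 - ze + 5 * K * ep + 2 * (1 / 2) ^ m + B * (Δ : ℝ) ^ (r + 3) / I.N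
        < I.D η (sx + sy + m)) ⊆
      (I.Om.filter fun η => ep * I.N < nb η) ∪ (I.Om.filter fun η => Tangle L η) ∪
        (univ : Finset (I.H × I.H)).biUnion (fun p => I.Om.filter fun η => Pev η p.1 p.2) := by
    intro η hη
    rw [mem_filter] at hη
    by_contra hcon
    rw [mem_union, mem_union, mem_filter, mem_filter, mem_biUnion] at hcon
    push Not at hcon
    obtain ⟨⟨h1, h2⟩, h3⟩ := hcon
    refine absurd (hgood η hη.1 (fun h => h2 hη.1 h) (fun h => absurd h (not_lt.2 (h1 hη.1)))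
      (fun x y h => h3 (x, y) (mem_univ _) (mem_filter.2 ⟨hη.1, h⟩))) (not_le.2 hη.2)
  calc ((I.Om.filter fun η =>
      1 - ze + 5 * K * ep + 2 * (1 / 2) ^ m + B * (Δ : ℝ) ^ (r + 3) / I.N
        < I.D η (sx + sy + m)).card : ℝ)
      ≤ (((I.Om.filter fun η => ep * I.N < nb η) ∪ (I.Om.filter fun η => Tangle L η) ∪
        (univ : Finset (I.H × I.H)).biUnion
          (fun p => I.Om.filter fun η => Pev η p.1 p.2)).card : ℝ) := by
        exact_mod_cast card_le_card hsub
    _ ≤ ((I.Om.filter fun η => ep * I.N < nb η).card : ℝ) +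
          (I.Om.filter fun η => Tangle L η).card +
          ∑ p : I.H × I.H, ((I.Om.filter fun η => Pev η p.1 p.2).card : ℝ) := by
        have h1 : ((I.Om.filter fun η => ep * I.N < nb η) ∪ (I.Om.filter fun η => Tangle L η) ∪
          (univ : Finset (I.H × I.H)).biUnion
          (fun p => I.Om.filter fun η => Pev η p.1 p.2)).card ≤
          (I.Om.filter fun η => ep * I.N < nb η).card + (I.Om.filter fun η => Tangle L η).card +
          ∑ p : I.H × I.H, (I.Om.filter fun η => Pev η p.1 p.2).card := by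
          refine (card_union_le _ _).trans ?_
          exact Nat.add_le_add (card_union_le _ _) card_biUnion_le
        exact_mod_cast h1
    _ ≤ I.Om.card * (X / (ep * I.N)) + I.Om.card * (X / I.N) +
          ∑ _p : I.H × I.H, (I.Om.card : ℝ) * ((K + 2) * E1 + E2) :=
        add_le_add (add_le_add hmarkov htan) (sum_le_sum fun p _ => hpair p.1 p.2)
    _ = I.Om.card * (X / (ep * I.N)) + I.Om.card * (X / I.N) +
          (I.N : ℝ) ^ 2 * (I.Om.card * ((K + 2) * E1 + E2)) := by
        rw [sum_const, nsmul_eq_mul, card_univ, Fintype.card_prod]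
        congr 1
        have : ((Fintype.card I.H * Fintype.card I.H : ℕ) : ℝ) = (I.N : ℝ) ^ 2 := by
          rw [Nat.cast_mul, sq]; rfl
        rw [this]
    _ ≤ I.Om.card * (2 * X / (ep * I.N) + X / I.N + (I.N : ℝ) ^ 2 * ((K + 2) * E1 + E2)) := by
        have hX0 : 0 ≤ X := by positivity
        have h1 : 0 ≤ (I.Om.card : ℝ) * (X / (ep * I.N)) := by positivity
        have e1 : 2 * X / (ep * I.N) = X / (ep * I.N) + X / (ep * I.N) := by ring
        rw [e1]
        nlinarith

end KS.UB_helper2
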