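import Pool.Agent.Helper96.KS.Parts
import Pool.Agent.Helper2.KS.UB

/-!
# LB: lower bound for the distance
-/

set_option autoImplicit false

open Finset

namespace KS.LB_helper2

open scoped Classical

open KS Inst

theorem main (hTL1 : S_TL1) (hCL : S_CL) (hSK : S_SK) (hREV : S_REV) (hDNC : S_DNC)
    (hFB : S_FB) (hNE : S_NE) (hTN : S_TN) : S_LB := by
  intro K Δ I hI r L s om B lam ep z0 hom hlam hep hrs hL hLN hB hBN homr hlamr hz0
  have hNpos : (0 : ℝ) < I.N := by exact_mod_cast hI.npos
  have hne : Nonempty I.H := Fintype.card_pos_iff.1 hI.npos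
  obtain ⟨hTmono, -, hTconst, -, hTtrans, hTloc⟩ := hTN K Δ I hI
  set X : ℝ := ((L : ℝ) + 1) ^ 2 * (3 * K * Δ * (L + 1)) ^ L with hX
  set E1 : ℝ := Real.exp (-lam * ep + 4 * lam ^ 2 * (1 / 2) ^ r + lam * I.err Δ om B * s) with hE1
  set G : Fin K → ℝ → ℝ := fun _ y => if y ≤ -Real.log om then 1 else 0 with hG
  have hG0 : ∀ k x, 0 ≤ G k x := by
    intro k x
    simp only [hG]
    split_ifs <;> norm_num
  have hG1 : ∀ k x, G k x ≤ 1 := by
    intro k x
    simp only [hG]
    split_ifs <;> norm_num
  set R : (I.H → I.H) → I.H → I.St := fun η x => run s om η ⌈(s : ℝ) / om⌉₊ (init ∅ ∅ x)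
    with hR
  -- the event from TL1
  set Ev : (I.H → I.H) → I.H → Prop := fun η x =>
    NC r s om η ⌈(s : ℝ) / om⌉₊ (init ∅ ∅ x) ∧ Z s G (fun _ => 0) (R η x) < z0 - ep with hEv
  have hev : ∀ x, ((I.Om.filter fun η => Ev η x).card : ℝ) ≤ I.Om.card * E1 := by
    intro x
    obtain ⟨η0, hη0⟩ := hNE K Δ I hI
    have h1 := hTL1 K Δ I hI r s om B lam z0 ep G (fun _ => 0) η0 ∅ ∅ x hom hlam hG0 hG1
      (fun _ => le_refl _) hη0 (by simp) (by simp) (by simp) (by simpa using hB) hBN hrs homr hlamr
      (by simp) (by simp) ?_ ⌈(s : ℝ) / om⌉₊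
    · have hcls : I.Cls η0 ∅ = I.Om := by
        ext η
        simp [Cls]
      rw [hcls] at h1
      refine le_trans (le_of_eq ?_) h1
      congr 2
      ext η
      simp only [mem_filter, hEv, hR, sdiff_empty, sum_empty, add_zero]
    · intro k y hy1 hy2
      rw [hTtrans]
      refine (hz0 k).trans (hTmono _ _ _ (fun l x => ?_) k 0)
      simp only [hG]
      by_cases hx : x ≤ -Real.log om - r * Real.log Δ
      · rw [if_pos hx, if_pos (by linarith)]
      · rw [if_neg hx]
        split_ifs <;> norm_num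
  -- few bad half-edges
  set nb : (I.H → I.H) → ℕ := fun η => (univ.filter fun x : I.H => Bad r η x).card with hnb
  have hbadsum : ∑ η ∈ I.Om, (nb η : ℝ) ≤ I.Om.card * X := hFB K Δ I hI r L hL hLN
  have hmarkov : ((I.Om.filter fun η => ∀ x, Bad r η x).card : ℝ) ≤ I.Om.card * (X / I.N) := by
    have h1 : ((I.Om.filter fun η => ∀ x, Bad r η x).card : ℝ) * I.N ≤ I.Om.card * X := by
      refine le_trans ?_ hbadsum
      calc ((I.Om.filter fun η => ∀ x, Bad r η x).card : ℝ) * I.N
          = ∑ η ∈ I.Om.filter (fun η => ∀ x, Bad r η x), (I.N : ℝ) := by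
            rw [sum_const, nsmul_eq_mul]
        _ ≤ ∑ η ∈ I.Om.filter (fun η => ∀ x, Bad r η x), (nb η : ℝ) := by
            refine sum_le_sum fun η hη => ?_
            have h2 := (mem_filter.1 hη).2
            have h3 : (univ.filter fun x : I.H => Bad r η x) = univ :=
              filter_true_of_mem fun x _ => h2 x
            simp only [hnb, h3, card_univ]
            exact le_of_eq rfl
        _ ≤ ∑ η ∈ I.Om, (nb η : ℝ) := sum_le_sum_of_subset_of_nonneg (filter_subset _ _)
            fun _ _ _ => Nat.cast_nonneg _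
    rw [mul_div_assoc', le_div_iff₀ hNpos]
    exact h1
  -- the good case
  have hgood : ∀ η ∈ I.Om, ∀ x, ¬ Bad r η x → ¬ Ev η x →
      z0 - ep - 1 / (I.N * om) ≤ I.Dx η s x := by
    intro η hη x hxb hxe
    obtain ⟨-, hPnn, -, -, -, -, -, -, hDx⟩ := hREV K Δ I hI η hη
    have hnc : NC r s om η ⌈(s : ℝ) / om⌉₊ (init ∅ ∅ x) :=
      hDNC K Δ I hI r s om η ∅ ∅ x hom hη (by simp) (by simp) (by simp) hxb
        (by simp) ⌈(s : ℝ) / om⌉₊
    have hZ : z0 - ep ≤ Z s G (fun _ => 0) (R η x) := by
      by_contra hlt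
      push Not at hlt
      exact hxe ⟨hnc, hlt⟩
    obtain ⟨hinv, -, -, -, hpr⟩ := hCL K Δ I hI s om B η η (init ∅ ∅ x) ⌈(s : ℝ) / om⌉₊ hom hη
      (KS.UB_helper2.inv_init η x (by linarith)) (by simp [Cls, hη])
    have hprocs : procs s om (R η x) = ∅ := by
      refine hpr ?_
      have : (∑ a ∈ (init (I := I) ∅ ∅ x).L, (init (I := I) ∅ ∅ x).wt a *
          ((s : ℝ) - (init (I := I) ∅ ∅ x).dep a)) = s := by
        simp [init]
      rw [this]
      exact Nat.le_ceil _
    set S : I.St := R η x with hS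
    change Inv Δ s om B η S at hinv
    set A : Finset I.H := S.L.filter fun a => S.dep a = s ∧ om ≤ S.wt a with hA
    -- `Z` is at most the weight of `A`
    have hZA : Z s G (fun _ => 0) S ≤ ∑ a ∈ A, S.wt a := by
      unfold Z
      rw [sum_const_zero, add_zero, hA, sum_filter]
      refine sum_le_sum fun a ha => ?_
      have hw := hinv.wpos a ha
      have hd := hinv.deps a ha
      by_cases hcase : S.dep a = s ∧ om ≤ S.wt a
      · rw [if_pos hcase, hcase.1, Nat.sub_self]
        have : I.Tn 0 G (I.c a) (-Real.log (S.wt a)) ≤ 1 :=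
          hG1 (I.c a) (-Real.log (S.wt a))
        nlinarith
      · rw [if_neg hcase]
        have hzero : I.Tn (s - S.dep a) G (I.c a) (-Real.log (S.wt a)) ≤ 0 := by
          -- the weight is less than `om`
          have hlt : S.wt a < om := by
            by_contra hge
            push Not at hge
            rcases Nat.lt_or_ge (S.dep a) s with h1 | h1
            · have : a ∈ procs s om S := mem_filter.2 ⟨ha, h1, hge⟩
              rw [hprocs] at this
              simp at this
            · exact hcase ⟨le_antisymm hd h1, hge⟩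
          have hlog : -Real.log om < -Real.log (S.wt a) :=
            neg_lt_neg (Real.log_lt_log hw hlt)
          have h1 := hTloc (s - S.dep a) G (fun _ _ => 0) (I.c a) (-Real.log (S.wt a)) (by
            intro l y hy1 _
            have h2 : 0 ≤ ((s - S.dep a : ℕ) : ℝ) * Real.log 2 := by positivity
            simp only [hG]
            rw [if_neg (by linarith)])
          rwa [hTconst] at h1
        nlinarith
    have hAsum : z0 - ep ≤ ∑ a ∈ A, S.wt a := hZ.trans hZA
    -- the walk is above the weights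
    have hPA : ∀ a ∈ A, S.wt a ≤ ((I.P η) ^ s) x a := by
      intro a ha
      rw [hA, mem_filter] at ha
      have h1 := hSK K Δ I hI s om η ∅ ∅ x ⌈(s : ℝ) / om⌉₊ (fun y => if y = a then 1 else 0) hom hη
        (by simp) (by simp) (by simp) (fun y => by split_ifs <;> norm_num)
      have h2 : ∑ y, ((I.P η) ^ s) x y * (if y = a then (1 : ℝ) else 0) = ((I.P η) ^ s) x a := by
        simp
      rw [h2] at h1
      refine le_trans ?_ h1
      change S.wt a ≤ ∑ b ∈ S.L, S.wt b * ∑ y, ((I.P η) ^ (s - S.dep b)) b y *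
        (if y = a then (1 : ℝ) else 0)
      have h3 : S.wt a * ∑ y, ((I.P η) ^ (s - S.dep a)) a y * (if y = a then (1 : ℝ) else 0) =
          S.wt a := by
        rw [ha.2.1, Nat.sub_self, pow_zero]
        simp
      calc S.wt a = S.wt a * ∑ y, ((I.P η) ^ (s - S.dep a)) a y *
            (if y = a then (1 : ℝ) else 0) := h3.symm
        _ ≤ _ := single_le_sum (f := fun b => S.wt b * ∑ y, ((I.P η) ^ (s - S.dep b)) b y *
            (if y = a then (1 : ℝ) else 0)) (fun b hb => by
              refine mul_nonneg (hinv.wpos b hb).le (sum_nonneg fun y _ => ?_)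
              refine mul_nonneg (hPnn _ _ _) ?_
              split_ifs <;> norm_num) ha.1
    -- the number of elements of `A`
    have hAcard : (A.card : ℝ) * om ≤ 1 := by
      calc (A.card : ℝ) * om = ∑ _a ∈ A, om := by rw [sum_const, nsmul_eq_mul]
        _ ≤ ∑ a ∈ A, S.wt a := sum_le_sum fun a ha => (mem_filter.1 ha).2.2
        _ ≤ ∑ a ∈ S.L, S.wt a := sum_le_sum_of_subset_of_nonneg (filter_subset _ _)
            fun a ha _ => (hinv.wpos a ha).le
        _ ≤ 1 := hinv.sum1
    rw [hDx]
    calc z0 - ep - 1 / (I.N * om) ≤ ∑ a ∈ A, S.wt a - A.card * (1 / (I.N : ℝ)) := by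
          have h1 : (A.card : ℝ) * (1 / (I.N : ℝ)) ≤ 1 / (I.N * om) := by
            rw [mul_one_div, div_le_div_iff₀ hNpos (by positivity)]
            nlinarith
          linarith
      _ = ∑ a ∈ A, (S.wt a - 1 / (I.N : ℝ)) := by
          rw [sum_sub_distrib, sum_const, nsmul_eq_mul]
      _ ≤ ∑ a ∈ A, max (((I.P η) ^ s) x a - 1 / (I.N : ℝ)) 0 := by
          refine sum_le_sum fun a ha => ?_
          exact le_trans (by linarith [hPA a ha]) (le_max_left _ _)
      _ ≤ ∑ y, max (((I.P η) ^ s) x y - 1 / (I.N : ℝ)) 0 :=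
          sum_le_sum_of_subset_of_nonneg (subset_univ _) fun _ _ _ => le_max_right _ _
  -- the union bound
  have hsub : (I.Om.filter fun η => I.D η s < z0 - ep - 1 / (I.N * om)) ⊆
      (I.Om.filter fun η => ∀ x, Bad r η x) ∪
        (univ : Finset I.H).biUnion (fun x => I.Om.filter fun η => Ev η x) := by
    intro η hη
    rw [mem_filter] at hη
    by_contra hcon
    rw [mem_union, mem_filter, mem_biUnion] at hcon
    push Not at hcon
    obtain ⟨h1, h2⟩ := hcon
    obtain ⟨x, hx⟩ := h1 hη.1
    have h3 := hgood η hη.1 x hx (fun h => h2 x (mem_univ _) (mem_filter.2 ⟨hη.1, h⟩))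
    have h4 : I.Dx η s x ≤ I.D η s := le_ciSup (f := fun x => I.Dx η s x)
      (Set.finite_range _).bddAbove x
    linarith [hη.2]
  calc ((I.Om.filter fun η => I.D η s < z0 - ep - 1 / (I.N * om)).card : ℝ)
      ≤ (((I.Om.filter fun η => ∀ x, Bad r η x) ∪
        (univ : Finset I.H).biUnion (fun x => I.Om.filter fun η => Ev η x)).card : ℝ) := by
        exact_mod_cast card_le_card hsub
    _ ≤ ((I.Om.filter fun η => ∀ x, Bad r η x).card : ℝ) +
          ∑ x : I.H, ((I.Om.filter fun η => Ev η x).card : ℝ) := by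
        have h1 : ((I.Om.filter fun η => ∀ x, Bad r η x) ∪
          (univ : Finset I.H).biUnion (fun x => I.Om.filter fun η => Ev η x)).card ≤
          (I.Om.filter fun η => ∀ x, Bad r η x).card +
          ∑ x : I.H, (I.Om.filter fun η => Ev η x).card :=
          (card_union_le _ _).trans (Nat.add_le_add_left card_biUnion_le _)
        exact_mod_cast h1
    _ ≤ I.Om.card * (X / I.N) + ∑ _x : I.H, (I.Om.card : ℝ) * E1 :=
        add_le_add hmarkov (sum_le_sum fun x _ => hev x)
    _ = I.Om.card * (X / I.N) + (I.N : ℝ) * (I.Om.card * E1) := by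
        rw [sum_const, nsmul_eq_mul, card_univ]
        rfl
    _ ≤ I.Om.card * (2 * X / I.N + I.N * E1) := by
        have hX0 : 0 ≤ X := by positivity
        have h1 : 0 ≤ (I.Om.card : ℝ) * (X / I.N) :=
          mul_nonneg (Nat.cast_nonneg _) (div_nonneg hX0 hNpos.le)
        have e1 : 2 * X / (I.N : ℝ) = X / I.N + X / I.N := by ring
        rw [e1]
        nlinarith

end KS.LB_helper2
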